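import Pool.Agent.Lib.MP_a3a010_al.AmpMain

/-!
# Approximate proportionality near index one is exact proportionality

`TorsionLike 𝒜 ρ N` (in `Pool/Agent/Lib/MP_a3a010_al/AmpMain.lean`) lists two properties of the class
`𝒜` of admissible groups, of the `L²`-torsion `ρ` and, e.g., of the least number of cells `N` of a
finite classifying space: behaviour under subgroups of finite index, and `ρ(G × F₂) = -ρ(G)`, as the
free group `F₂` has Euler characteristic `-1`.

Idea of the proof: `G × F₂` has subgroups of every index `m` (the kernels of `G × F₂ → F₂ → ℤ/m`). If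
`G` and `H` have a coupling of index `(p/q) c`, then the subgroups of index `q n` in `G × F₂` and of
index `p n` in `H × F₂` have one of index `c`, and `ρ` of them is `-q n ρ(G)` and `-p n ρ(H)`. As
`n → ∞`, a sublinear error disappears.
-/

namespace Pool.Agent.Results.MP_a3a010_al.Amplification

open Filter Pool.Agent.Lib.MP_a3a010_al

/-- Let `𝒜` be a class of groups and `ρ`, `N` real-valued functions of groups with the properties
`TorsionLike`, and let `I` be a set of real numbers closed under inverses. Then (1) `ρ G = d * ρ H` for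
all couplings, of index `d`, between groups `G`, `H` of `𝒜` some coupling between which has an index
`r * c` with `r > 0` rational and `c` in `I`, if and only if (2) `ρ G ≤ max (c * ρ H) 0 + φ (N G + N H)`
for all couplings of index `c` in `I` between groups `G`, `H` of `𝒜`, with some nondecreasing `φ` such
that `φ x / x → 0` as `x → ∞`. -/
theorem result (𝒜 : ∀ (G : Type) [Group G], Prop) (ρ N : ∀ (G : Type) [Group G], ℝ) (hP : TorsionLike 𝒜 ρ N)
    (I : Set ℝ) (hI : ∀ c ∈ I, c⁻¹ ∈ I) :
    (∀ (G H : Type) [Group G] [Group H] [Countable G] [Countable H], 𝒜 G → 𝒜 H →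
      ∀ (r : ℚ) (c : ℝ), 0 < r → c ∈ I → HasIndex G H (r * c) →
      ∀ d : ℝ, HasIndex G H d → ρ G = d * ρ H) ↔
    ∃ φ : ℝ → ℝ, Monotone φ ∧ Tendsto (fun x => φ x / x) atTop (nhds 0) ∧
      ∀ (G H : Type) [Group G] [Group H] [Countable G] [Countable H], 𝒜 G → 𝒜 H →
        ∀ c ∈ I, HasIndex G H c → ρ G ≤ max (c * ρ H) 0 + φ (N G + N H) :=
  amplify hP I hI

end Pool.Agent.Results.MP_a3a010_al.Amplification
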