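import Pool.Agent.Lib.MP_a3a010_al.Main

namespace Pool.Agent.Results.MP_a3a010_al.IndexSets

open Set Pool.Agent.Lib.MP_a3a010_al

/-- Let `G`, `H` be measure equivalent countable groups, `c₀` the index of a measure coupling. Either `c₀` is the only index of
a measure coupling between `G` and `H` and all self-couplings of `G` and of `H` have index `1`, or every positive real number is
an index between `G` and `H`, between `G` and `G`, and between `H` and `H`. The second case occurs if `H` is isomorphic to a
subgroup of itself of finite index greater than one. -/
theorem result (G H : Type) [Group G] [Group H] [Countable G] [Countable H] (c₀ : ℝ) (h : HasIndex G H c₀) :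
    (({c | HasIndex G H c} = {c₀} ∧ {c | HasIndex G G c} = {1} ∧ {c | HasIndex H H c} = {1}) ∨
      ({c | HasIndex G H c} = Ioi 0 ∧ {c | HasIndex G G c} = Ioi 0 ∧ {c | HasIndex H H c} = Ioi 0)) ∧
    ∀ f : H →* H, Function.Injective f → 1 < f.range.index → {c | HasIndex G H c} = Ioi 0 :=
  ⟨index_sets h, fun f hf hn => index_sets_endo h f hf hn⟩

end Pool.Agent.Results.MP_a3a010_al.IndexSets
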