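import Pool.Agent.Lib.MP_a3a010_al.Main

namespace Pool.Agent.Results.MP_a3a010_al.SplitQ1

open Pool.Agent.Lib.MP_a3a010_al

/-- For every class `𝒜` of countable groups and every real number `ρ G` attached to each group: `ρ G = c * ρ H` for all measure
couplings (of index `c`) between groups of `𝒜` if and only if `ρ G = 0` for every `G` in `𝒜` with a self-coupling of index `2`,
and `ρ G = c * ρ H` for at least one measure coupling (of index `c`) between any two measure equivalent groups `G`, `H` of `𝒜`
all of whose self-couplings have index `1`. -/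
theorem result (𝒜 : ∀ (G : Type) [Group G], Prop) (ρ : ∀ (G : Type) [Group G], ℝ) :
    (∀ (G H : Type) [Group G] [Group H] [Countable G] [Countable H], 𝒜 G → 𝒜 H →
      ∀ c : ℝ, HasIndex G H c → ρ G = c * ρ H) ↔
    (∀ (G : Type) [Group G] [Countable G], 𝒜 G → HasIndex G G 2 → ρ G = 0) ∧
    (∀ (G H : Type) [Group G] [Group H] [Countable G] [Countable H], 𝒜 G → 𝒜 H →
      (∀ c : ℝ, HasIndex G G c → c = 1) → (∀ c : ℝ, HasIndex H H c → c = 1) →
      (∃ c : ℝ, HasIndex G H c) → ∃ c : ℝ, HasIndex G H c ∧ ρ G = c * ρ H) :=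
  split 𝒜 ρ

end Pool.Agent.Results.MP_a3a010_al.SplitQ1
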